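import Mathlib
import Pool.Agent.Helper57.Cut.Geo

open Set Metric Bundle Manifold Filter MeasureTheory
open scoped ENNReal NNReal Topology ContDiff

noncomputable section

namespace Pool.Agent.Helper17.Chart

abbrev E2 := EuclideanSpace ℝ (Fin 2)

variable {M : Type*} [EMetricSpace M] [ChartedSpace E2 M]
    [IsManifold (𝓡 2) ∞ M] [Bundle.RiemannianBundle (fun x : M => TangentSpace (𝓡 2) x)]
    [IsContinuousRiemannianBundle E2 (fun x : M => TangentSpace (𝓡 2) x)]

omit [IsManifold (𝓡 2) ∞ M] in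
/-- linear isometry of the tangent space with ℂ -/
theorem exists_J (x : M) : Nonempty (TangentSpace (𝓡 2) x ≃ₗᵢ[ℝ] ℂ) := by
  have : FiniteDimensional ℝ (TangentSpace (𝓡 2) x) := inferInstanceAs (FiniteDimensional ℝ E2)
  have h : Module.finrank ℝ (TangentSpace (𝓡 2) x) = Module.finrank ℝ ℂ := by
    rw [Complex.finrank_real_complex]
    exact (finrank_euclideanSpace_fin (𝕜 := ℝ) (n := 2))
  exact ⟨(stdOrthonormalBasis ℝ (TangentSpace (𝓡 2) x)).equiv (stdOrthonormalBasis ℝ ℂ) (finCongr h)⟩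

theorem enorm_le_of {V W : Type*} [NormedAddCommGroup V] [NormedAddCommGroup W] (v : V) (w : W)
    (C : ℝ≥0) (h : ‖v‖ ≤ C * ‖w‖) : ‖v‖ₑ ≤ C * ‖w‖ₑ := by
  simp only [enorm]
  exact_mod_cast h

set_option backward.isDefEq.respectTransparency false in
/-- main linear estimate -/
theorem exists_S (x : M) {C : ℝ≥0} (hC : 1 < C) : ∃ S : E2 ≃L[ℝ] ℂ,
    (∀ᶠ y in 𝓝 x, ∀ v : TangentSpace (𝓡 2) y,
      ‖S (mfderiv (𝓡 2) 𝓘(ℝ, E2) (extChartAt (𝓡 2) x) y v)‖ₑ ≤ C * ‖v‖ₑ) ∧
    (∀ᶠ y in 𝓝 x, ∀ w : E2,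
      ‖(trivializationAt E2 (TangentSpace (𝓡 2)) x).symmL ℝ y w‖ₑ ≤ C * ‖S w‖ₑ) := by
  obtain ⟨J⟩ := exists_J x
  have hx : x ∈ (trivializationAt E2 (TangentSpace (𝓡 2)) x).baseSet :=
    FiberBundle.mem_baseSet_trivializationAt' x
  let G := (trivializationAt E2 (TangentSpace (𝓡 2)) x).continuousLinearEquivAt ℝ x hx
  have hC' : (1 : ℝ) < C := by exact_mod_cast hC
  have key1 : ∀ v : E2, G.symm v = (trivializationAt E2 (TangentSpace (𝓡 2)) x).symmL ℝ x v :=
    fun v => congrFun (Trivialization.symm_continuousLinearEquivAt_eq (R := ℝ)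
      (trivializationAt E2 (TangentSpace (𝓡 2)) x) hx) v
  refine ⟨G.symm.trans J.toContinuousLinearEquiv, ?_, ?_⟩
  · filter_upwards [eventually_norm_symmL_trivializationAt_self_comp_lt E2
      (fun (x : M) ↦ TangentSpace (𝓡 2) x) x hC', chart_source_mem_nhds E2 x] with y hy h'y v
    have h1 := (ContinuousLinearMap.le_opNorm (((trivializationAt E2 (TangentSpace (𝓡 2)) x).symmL ℝ x)
      ∘L ((trivializationAt E2 (TangentSpace (𝓡 2)) x).continuousLinearMapAt ℝ y)) v)
    have h2 : ‖(trivializationAt E2 (TangentSpace (𝓡 2)) x).symmL ℝ x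
      ((trivializationAt E2 (TangentSpace (𝓡 2)) x).continuousLinearMapAt ℝ y v)‖ ≤ C * ‖v‖ :=
      h1.trans (by gcongr)
    rw [← TangentBundle.continuousLinearMapAt_trivializationAt h'y]
    have h3 : ‖(G.symm.trans J.toContinuousLinearEquiv)
        (((trivializationAt E2 (TangentSpace (𝓡 2)) x).continuousLinearMapAt ℝ y) v)‖ =
        ‖(trivializationAt E2 (TangentSpace (𝓡 2)) x).symmL ℝ x
      ((trivializationAt E2 (TangentSpace (𝓡 2)) x).continuousLinearMapAt ℝ y v)‖ := by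
      rw [← key1]
      exact J.norm_map _
    exact enorm_le_of _ _ _ (h3.trans_le h2)
  · filter_upwards [eventually_norm_symmL_trivializationAt_comp_self_lt E2
      (fun (x : M) ↦ TangentSpace (𝓡 2) x) x hC', chart_source_mem_nhds E2 x] with y hy h'y w
    have h1 := (ContinuousLinearMap.le_opNorm (((trivializationAt E2 (TangentSpace (𝓡 2)) x).symmL ℝ y)
      ∘L ((trivializationAt E2 (TangentSpace (𝓡 2)) x).continuousLinearMapAt ℝ x)) (G.symm w))
    have h4 : (trivializationAt E2 (TangentSpace (𝓡 2)) x).continuousLinearMapAt ℝ x (G.symm w) = w := by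
      have := G.apply_symm_apply w
      simpa [G, Trivialization.coe_continuousLinearEquivAt_eq _ hx] using this
    have h5 : ((((trivializationAt E2 (TangentSpace (𝓡 2)) x).symmL ℝ y)
      ∘L ((trivializationAt E2 (TangentSpace (𝓡 2)) x).continuousLinearMapAt ℝ x)) (G.symm w)) = 
      (trivializationAt E2 (TangentSpace (𝓡 2)) x).symmL ℝ y w := by
      rw [ContinuousLinearMap.comp_apply, h4]
    rw [h5] at h1
    have h3 : ‖(G.symm.trans J.toContinuousLinearEquiv) w‖ = ‖G.symm w‖ := by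
      exact J.norm_map _
    apply enorm_le_of _ _ _ 
    rw [h3]
    exact h1.trans (by gcongr)

end Pool.Agent.Helper17.Chart
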