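import Mathlib
import Pool.Agent.Helper17.Chart.Basic

open Set Metric Bundle Manifold Filter MeasureTheory
open scoped ENNReal NNReal Topology ContDiff

noncomputable section

namespace Pool.Agent.Helper17.Chart

variable {M : Type*} [EMetricSpace M] [ChartedSpace E2 M]
    [IsManifold (𝓡 2) ∞ M] [Bundle.RiemannianBundle (fun x : M => TangentSpace (𝓡 2) x)]

/-- norm of a vector of `E2` seen as a tangent vector at `y` -/
def N (y : M) (v : E2) : ℝ≥0∞ := ‖(show TangentSpace (𝓡 2) y from v)‖ₑ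

/-- derivative of the inverse of the chart, seen as a map `E2 → E2` -/
def D (x : M) (p : E2) (w : E2) : E2 :=
  (show E2 from mfderivWithin 𝓘(ℝ, E2) (𝓡 2) (extChartAt (𝓡 2) x).symm (range (𝓡 2)) p w)

theorem hyD (x y : M) (h'y : y ∈ (chartAt E2 x).source) (w : E2) :
    N y (D x (extChartAt (𝓡 2) x y) w) =
      ‖(trivializationAt E2 (TangentSpace (𝓡 2)) x).symmL ℝ y w‖ₑ := by
  rw [TangentBundle.symmL_trivializationAt h'y]
  rfl

theorem lower_symm (x : M) {C : ℝ≥0} {S : E2 ≃L[ℝ] ℂ}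
    (h : ∀ᶠ y in 𝓝 x, ∀ w : E2,
      ‖(trivializationAt E2 (TangentSpace (𝓡 2)) x).symmL ℝ y w‖ₑ ≤ C * ‖S w‖ₑ) :
    ∀ᶠ p in 𝓝 (extChartAt (𝓡 2) x x), ∀ w : E2,
      N ((extChartAt (𝓡 2) x).symm p) (D x p w) ≤ C * ‖S w‖ₑ := by
  have h1 : ∀ᶠ y in 𝓝 x, ∀ w : E2,
      N y (D x (extChartAt (𝓡 2) x y) w) ≤ C * ‖S w‖ₑ := by
    filter_upwards [h, chart_source_mem_nhds E2 x] with y hy h'y w
    rw [hyD x y h'y w]
    exact hy w
  have : 𝓝 x = 𝓝 ((extChartAt (𝓡 2) x).symm (extChartAt (𝓡 2) x x)) := by simp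
  rw [this] at h1
  have : ContinuousAt (extChartAt (𝓡 2) x).symm (extChartAt (𝓡 2) x x) := continuousAt_extChartAt_symm _
  filter_upwards [(this.preimage_mem_nhds h1),
    extChartAt_target_mem_nhds (I := 𝓡 2) x] with p hp h'p w
  have hp' := hp w
  rwa [(extChartAt (𝓡 2) x).right_inv h'p] at hp'

end Pool.Agent.Helper17.Chart
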