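import Mathlib
import Pool.Agent.Helper17.Chart.Bilip

open Set Metric Bundle Manifold Filter MeasureTheory
open scoped ENNReal NNReal Topology ContDiff

noncomputable section

namespace Pool.Agent.Helper17.Chart

variable {M : Type*} [EMetricSpace M] [ChartedSpace E2 M]
    [IsManifold (𝓡 2) ∞ M] [Bundle.RiemannianBundle (fun x : M => TangentSpace (𝓡 2) x)]

theorem upper_path (x : M) {C : ℝ≥0} {S : E2 ≃L[ℝ] ℂ} (γ : ℝ → M)
    (hγ : ContMDiffOn 𝓘(ℝ, ℝ) (𝓡 2) 1 γ (Icc 0 1))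
    (hs : ∀ t ∈ Icc (0 : ℝ) 1, γ t ∈ (chartAt E2 x).source)
    (hU : ∀ t ∈ Icc (0 : ℝ) 1, ∀ v : TangentSpace (𝓡 2) (γ t),
      ‖S (mfderiv (𝓡 2) 𝓘(ℝ, E2) (extChartAt (𝓡 2) x) (γ t) v)‖ₑ ≤ C * ‖v‖ₑ) :
    edist (S (extChartAt (𝓡 2) x (γ 0))) (S (extChartAt (𝓡 2) x (γ 1))) ≤
      C * pathELength (𝓡 2) γ 0 1 := by
  let γ' : ℝ → E2 := extChartAt (𝓡 2) x ∘ γ
  have hC : ContMDiffOn 𝓘(ℝ, ℝ) 𝓘(ℝ, E2) 1 γ' (Icc 0 1) :=
    contMDiffOn_extChartAt.comp (I' := 𝓡 2) (t := (chartAt E2 x).source)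
      hγ (fun t' ht' ↦ hs t' ht')
  have hC' : ContDiffOn ℝ 1 γ' (Icc 0 1) := by rwa [← contMDiffOn_iff_contDiffOn]
  have hS : ContDiffOn ℝ 1 (fun t => S (γ' t)) (Icc 0 1) := S.contDiff.comp_contDiffOn hC'
  calc edist (S (extChartAt (𝓡 2) x (γ 0))) (S (extChartAt (𝓡 2) x (γ 1)))
      = ‖S (γ' 1) - S (γ' 0)‖ₑ := by rw [edist_comm, edist_eq_enorm_sub]; rfl
    _ ≤ ∫⁻ t' in Icc 0 1, ‖derivWithin (fun t => S (γ' t)) (Icc 0 1) t'‖ₑ :=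
      enorm_sub_le_lintegral_derivWithin_Icc_of_contDiffOn_Icc hS zero_le_one
    _ ≤ ∫⁻ t' in Icc (0 : ℝ) 1, C * ‖mfderivWithin 𝓘(ℝ, ℝ) (𝓡 2) γ (Icc 0 1) t' 1‖ₑ := by
      apply setLIntegral_mono' measurableSet_Icc (fun t' ht' ↦ ?_)
      have h1 : mfderivWithin 𝓘(ℝ, ℝ) 𝓘(ℝ, E2) γ' (Icc 0 1) t' =
          (mfderiv (𝓡 2) 𝓘(ℝ, E2) (extChartAt (𝓡 2) x) (γ t')) ∘L
            (mfderivWithin 𝓘(ℝ, ℝ) (𝓡 2) γ (Icc 0 1) t') := by
        apply mfderiv_comp_mfderivWithin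
        · exact mdifferentiableAt_extChartAt (hs t' ht')
        · exact hγ.mdifferentiableOn one_ne_zero t' ht'
        · rw [uniqueMDiffWithinAt_iff_uniqueDiffWithinAt]
          exact uniqueDiffOn_Icc zero_lt_one _ ht'
      have hd : DifferentiableWithinAt ℝ γ' (Icc 0 1) t' := hC'.differentiableOn one_ne_zero t' ht'
      have hu : UniqueDiffWithinAt ℝ (Icc (0 : ℝ) 1) t' := uniqueDiffOn_Icc zero_lt_one _ ht'
      have h2 : derivWithin (fun t => S (γ' t)) (Icc 0 1) t' = S (derivWithin γ' (Icc 0 1) t') :=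
        ((S : E2 →L[ℝ] ℂ).hasFDerivAt.comp_hasDerivWithinAt t' hd.hasDerivWithinAt).derivWithin hu
      have h3 : derivWithin γ' (Icc 0 1) t' =
          mfderiv (𝓡 2) 𝓘(ℝ, E2) (extChartAt (𝓡 2) x) (γ t')
            (mfderivWithin 𝓘(ℝ, ℝ) (𝓡 2) γ (Icc 0 1) t' 1) := by
        have h4 : mfderivWithin 𝓘(ℝ, ℝ) 𝓘(ℝ, E2) γ' (Icc 0 1) t' 1 =
          mfderiv (𝓡 2) 𝓘(ℝ, E2) (extChartAt (𝓡 2) x) (γ t')
            (mfderivWithin 𝓘(ℝ, ℝ) (𝓡 2) γ (Icc 0 1) t' 1) := by rw [h1]; rfl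
        rw [← h4, ← fderivWithin_derivWithin, mfderivWithin_eq_fderivWithin]
        rfl
      rw [h2, h3]
      exact hU t' ht' _
    _ = C * pathELength (𝓡 2) γ 0 1 := by
      rw [lintegral_const_mul' _ _ ENNReal.coe_ne_top,
          pathELength_eq_lintegral_mfderivWithin_Icc]

theorem lower_path (x : M) {C : ℝ≥0} {S : E2 ≃L[ℝ] ℂ} (p q : E2)
    (hs : ∀ t ∈ Icc (0 : ℝ) 1, ContinuousAffineMap.lineMap (R := ℝ) p q t ∈ (extChartAt (𝓡 2) x).target)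
    (hL : ∀ t ∈ Icc (0 : ℝ) 1, ∀ w : E2,
      N ((extChartAt (𝓡 2) x).symm (ContinuousAffineMap.lineMap (R := ℝ) p q t))
        (D x (ContinuousAffineMap.lineMap (R := ℝ) p q t) w) ≤ C * ‖S w‖ₑ) :
    riemannianEDist (𝓡 2) ((extChartAt (𝓡 2) x).symm p) ((extChartAt (𝓡 2) x).symm q) ≤
      C * edist (S p) (S q) := by
  let η := ContinuousAffineMap.lineMap (R := ℝ) p q
  set γ := (extChartAt (𝓡 2) x).symm ∘ η
  have η_smooth : ContMDiffOn 𝓘(ℝ, ℝ) 𝓘(ℝ, E2) 1 η (Icc 0 1) := by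
    apply ContMDiff.contMDiffOn
    rw [contMDiff_iff_contDiff]
    exact ContinuousAffineMap.contDiff _
  have h0 : riemannianEDist (𝓡 2) ((extChartAt (𝓡 2) x).symm p) ((extChartAt (𝓡 2) x).symm q) ≤
      pathELength (𝓡 2) γ 0 1 := by
    apply riemannianEDist_le_pathELength _ _ _ zero_le_one
    · exact (contMDiffOn_extChartAt_symm x).comp η_smooth hs
    · simp [γ, η, ContinuousAffineMap.coe_lineMap_eq]
    · simp [γ, η, ContinuousAffineMap.coe_lineMap_eq]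
  apply h0.trans
  have h5 : C * edist (S p) (S q) = ∫⁻ t in Icc (0 : ℝ) 1, C * ‖S (q - p)‖ₑ := by
    simp [edist_comm (S p) (S q), edist_eq_enorm_sub]
  rw [h5, pathELength_eq_lintegral_mfderivWithin_Icc]
  apply setLIntegral_mono' measurableSet_Icc (fun t ht ↦ ?_)
  have h1 : mfderivWithin 𝓘(ℝ, ℝ) (𝓡 2) γ (Icc 0 1) t =
      (mfderivWithin 𝓘(ℝ, E2) (𝓡 2) (extChartAt (𝓡 2) x).symm (range (𝓡 2)) (η t)) ∘L
        (mfderivWithin 𝓘(ℝ, ℝ) 𝓘(ℝ, E2) η (Icc 0 1) t) := by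
    apply mfderivWithin_comp
    · exact mdifferentiableWithinAt_extChartAt_symm (hs t ht)
    · exact η_smooth.mdifferentiableOn one_ne_zero t ht
    · exact fun t ht => extChartAt_target_subset_range x (hs t ht)
    · rw [uniqueMDiffWithinAt_iff_uniqueDiffWithinAt]
      exact uniqueDiffOn_Icc zero_lt_one t ht
  have h2 : mfderivWithin 𝓘(ℝ, ℝ) 𝓘(ℝ, E2) η (Icc 0 1) t 1 = q - p := by
    rw [show q - p = fderiv ℝ (ContinuousAffineMap.lineMap (R := ℝ) p q) t 1 by simp,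
      mfderivWithin_eq_fderivWithin, fderivWithin_eq_fderiv (uniqueDiffOn_Icc zero_lt_one _ ht)
      (ContinuousAffineMap.differentiableAt _)]
    rfl
  have h3 := hL t ht (q - p)
  have h4 : ‖mfderivWithin 𝓘(ℝ, ℝ) (𝓡 2) γ (Icc 0 1) t 1‖ₑ = N (γ t) (D x (η t) (q - p)) := by
    rw [← h2, h1]
    rfl
  rw [h4]
  exact h3

end Pool.Agent.Helper17.Chart
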