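import Mathlib
import Pool.Agent.Helper17.Chart.Paths

open Set Metric Bundle Manifold Filter MeasureTheory
open scoped ENNReal NNReal Topology ContDiff

noncomputable section

namespace Pool.Agent.Helper17.Chart

variable {M : Type*} [EMetricSpace M] [ChartedSpace E2 M]
    [IsManifold (𝓡 2) ∞ M] [Bundle.RiemannianBundle (fun x : M => TangentSpace (𝓡 2) x)]

    [IsRiemannianManifold (𝓡 2) M]

theorem exists_upper (x : M) {C : ℝ≥0} (hC : 0 < C) (S : E2 ≃L[ℝ] ℂ)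
    (h : ∀ᶠ y in 𝓝 x, ∀ v : TangentSpace (𝓡 2) y,
      ‖S (mfderiv (𝓡 2) 𝓘(ℝ, E2) (extChartAt (𝓡 2) x) y v)‖ₑ ≤ C * ‖v‖ₑ) :
    ∃ r : ℝ≥0, 0 < r ∧ ∀ y ∈ eball x r, ∀ z ∈ eball x r,
      edist (S (extChartAt (𝓡 2) x y)) (S (extChartAt (𝓡 2) x z)) ≤ C * edist y z := by
  obtain ⟨ρ, hρ0, hρ⟩ := EMetric.mem_nhds_iff.1 (inter_mem h (chart_source_mem_nhds E2 x))
  obtain ⟨ρ', hρ'0, hρ'⟩ : ∃ ρ' : ℝ≥0, 0 < ρ' ∧ ((4 * ρ' : ℝ≥0) : ℝ≥0∞) ≤ ρ := by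
    by_cases hT : ρ = ⊤
    · exact ⟨1, one_pos, by simp [hT]⟩
    · lift ρ to ℝ≥0 using hT
      refine ⟨ρ / 4, by have : 0 < ρ := by exact_mod_cast hρ0
                        positivity, ?_⟩
      rw [mul_div_cancel₀ _ (by norm_num)]
  have hsub : eball x ((4 * ρ' : ℝ≥0) : ℝ≥0∞) ⊆ _ := (eball_subset_eball hρ').trans hρ
  refine ⟨ρ', hρ'0, fun y hy z hz => ?_⟩
  have hyz : edist y z < ((2 * ρ' : ℝ≥0) : ℝ≥0∞) := by
    have : edist y z ≤ edist y x + edist z x := edist_triangle_right _ _ _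
    refine this.trans_lt ?_
    have := ENNReal.add_lt_add (mem_eball.1 hy) (mem_eball.1 hz)
    refine this.trans_le ?_
    rw [two_mul]
    push_cast
    exact le_rfl
  rw [← ENNReal.div_le_iff' (by exact_mod_cast hC.ne') ENNReal.coe_ne_top]
  apply le_of_forall_gt_imp_ge_of_dense
  intro L hL
  have hL' : riemannianEDist (𝓡 2) y z < min L ((2 * ρ' : ℝ≥0) : ℝ≥0∞) := by
    rw [← IsRiemannianManifold.out (I := 𝓡 2) y z]
    exact lt_min hL hyz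
  obtain ⟨γ, γ0, γ1, γs, γL, -⟩ := exists_lt_locally_constant_of_riemannianEDist_lt hL' zero_lt_one
  have hγ : ∀ t ∈ Icc (0 : ℝ) 1, γ t ∈ eball x ((4 * ρ' : ℝ≥0) : ℝ≥0∞) := by
    intro t ht
    have h1 : edist y (γ t) < ((2 * ρ' : ℝ≥0) : ℝ≥0∞) := by
      rw [IsRiemannianManifold.out (I := 𝓡 2) y (γ t)]
      calc riemannianEDist (𝓡 2) y (γ t) ≤ pathELength (𝓡 2) γ 0 t :=
            riemannianEDist_le_pathELength γs.contMDiffOn γ0 rfl ht.1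
        _ ≤ pathELength (𝓡 2) γ 0 1 := pathELength_mono le_rfl ht.2
        _ < _ := γL.trans_le (min_le_right _ _)
    rw [mem_eball]
    calc edist (γ t) x ≤ edist (γ t) y + edist y x := edist_triangle _ _ _
      _ < ((2 * ρ' : ℝ≥0) : ℝ≥0∞) + ρ' := ENNReal.add_lt_add (by rwa [edist_comm]) (mem_eball.1 hy)
      _ ≤ _ := by
        rw [← ENNReal.coe_add, ENNReal.coe_le_coe]
        have : (0 : ℝ≥0) ≤ ρ' := hρ'0.le
        nlinarith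
  have h2 := upper_path x (C := C) (S := S) γ γs.contMDiffOn (fun t ht => (hsub (hγ t ht)).2)
    (fun t ht => (hsub (hγ t ht)).1)
  rw [γ0, γ1] at h2
  rw [ENNReal.div_le_iff' (by exact_mod_cast hC.ne') ENNReal.coe_ne_top]
  refine h2.trans ?_
  gcongr
  exact (γL.trans_le (min_le_left _ _)).le

theorem exists_lower (x : M) {C : ℝ≥0} (S : E2 ≃L[ℝ] ℂ)
    (h : ∀ᶠ p in 𝓝 (extChartAt (𝓡 2) x x), ∀ w : E2,
      N ((extChartAt (𝓡 2) x).symm p) (D x p w) ≤ C * ‖S w‖ₑ) :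
    ∃ r : ℝ≥0, 0 < r ∧ ∀ y ∈ eball x r, ∀ z ∈ eball x r,
      edist y z ≤ C * edist (S (extChartAt (𝓡 2) x y)) (S (extChartAt (𝓡 2) x z)) := by
  have h1 := inter_mem h (extChartAt_target_mem_nhds (I := 𝓡 2) x)
  have h2 : {p | ∀ w : E2, N ((extChartAt (𝓡 2) x).symm p) (D x p w) ≤ C * ‖S w‖ₑ} ∩
    (extChartAt (𝓡 2) x).target ∈ 𝓝 (extChartAt (𝓡 2) x x) := h1
  obtain ⟨δ, hδ0, hδ⟩ := Metric.mem_nhds_iff.1 h2
  have h3 : extChartAt (𝓡 2) x ⁻¹' ball (extChartAt (𝓡 2) x x) δ ∩ (extChartAt (𝓡 2) x).source ∈ 𝓝 x :=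
    inter_mem ((continuousAt_extChartAt x).preimage_mem_nhds (ball_mem_nhds _ hδ0))
      (extChartAt_source_mem_nhds x)
  obtain ⟨ρ, hρ0, hρ⟩ := EMetric.mem_nhds_iff.1 h3
  obtain ⟨ρ', hρ'0, hρ'⟩ : ∃ ρ' : ℝ≥0, 0 < ρ' ∧ (ρ' : ℝ≥0∞) ≤ ρ := by
    by_cases hT : ρ = ⊤
    · exact ⟨1, one_pos, by simp [hT]⟩
    · lift ρ to ℝ≥0 using hT
      exact ⟨ρ, by exact_mod_cast hρ0, le_rfl⟩
  have hsub : eball x (ρ' : ℝ≥0∞) ⊆ _ := (eball_subset_eball hρ').trans hρ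
  refine ⟨ρ', hρ'0, fun y hy z hz => ?_⟩
  have hy' := hsub hy
  have hz' := hsub hz
  have hseg : ∀ t ∈ Icc (0 : ℝ) 1, ContinuousAffineMap.lineMap (R := ℝ) (extChartAt (𝓡 2) x y)
      (extChartAt (𝓡 2) x z) t ∈ ball (extChartAt (𝓡 2) x x) δ := by
    intro t ht
    have := (convex_ball (extChartAt (𝓡 2) x x) δ).segment_subset hy'.1 hz'.1
    apply this
    rw [segment_eq_image_lineMap]
    exact ⟨t, ht, by simp [ContinuousAffineMap.coe_lineMap_eq]⟩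
  have h4 := lower_path x (C := C) (S := S) (extChartAt (𝓡 2) x y) (extChartAt (𝓡 2) x z)
    (fun t ht => (hδ (hseg t ht)).2) (fun t ht => (hδ (hseg t ht)).1)
  rw [(extChartAt (𝓡 2) x).left_inv hy'.2, (extChartAt (𝓡 2) x).left_inv hz'.2,
    ← IsRiemannianManifold.out (I := 𝓡 2) y z] at h4
  exact h4

end Pool.Agent.Helper17.Chart
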