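import Mathlib
import Pool.Agent.Helper57.Cut.Geo

open Set Metric Filter
open scoped ENNReal NNReal Topology ContDiff

noncomputable section

namespace Pool.Agent.Helper17.Chart

open Pool.Agent.Helper57.Cut

/-- cross product of two vectors of the plane -/
def cr (X Y : ℂ) : ℝ := X.re * Y.im - X.im * Y.re

theorem det3_eq (a b c : ℂ) : det3 a b c = cr (b - a) (c - a) := by
  simp [det3, cr]

theorem abs_cr_le (X Y : ℂ) : |cr X Y| ≤ ‖X‖ * ‖Y‖ := by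
  have h : cr X Y = ((starRingEnd ℂ) X * Y).im := by
    simp [cr]; ring
  rw [h]
  calc |((starRingEnd ℂ) X * Y).im| ≤ ‖(starRingEnd ℂ) X * Y‖ := Complex.abs_im_le_norm _
    _ = ‖X‖ * ‖Y‖ := by simp

theorem cr_add_add (X Y ξ ζ : ℂ) :
    cr (X + ξ) (Y + ζ) = cr X Y + cr X ζ + cr ξ Y + cr ξ ζ := by
  simp [cr]; ring

theorem cr_map (T : ℂ →ₗ[ℝ] ℂ) (X Y : ℂ) : cr (T X) (T Y) = LinearMap.det T * cr X Y := by
  have hd : LinearMap.det T = cr (T 1) (T Complex.I) := by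
    rw [← LinearMap.det_toMatrix Complex.basisOneI, Matrix.det_fin_two]
    simp [LinearMap.toMatrix_apply, cr]
    ring
  have hX : T X = X.re • T 1 + X.im • T Complex.I := by
    rw [← map_smul, ← map_smul, ← map_add]
    congr 1
    apply Complex.ext <;> simp
  have hY : T Y = Y.re • T 1 + Y.im • T Complex.I := by
    rw [← map_smul, ← map_smul, ← map_add]
    congr 1
    apply Complex.ext <;> simp
  rw [hd, hX, hY]
  simp [cr]; ring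

theorem core {E : Type*} [NormedAddCommGroup E] [NormedSpace ℝ E] {f f' : E → ℂ} {B : E ≃L[ℝ] ℂ}
    {B' : E →L[ℝ] ℂ} {p : E} (hf : HasStrictFDerivAt f (B : E →L[ℝ] ℂ) p)
    (hf' : HasStrictFDerivAt f' B' p)
    (hdet : 0 < LinearMap.det ((B' ∘L (B.symm : ℂ →L[ℝ] E) : ℂ →L[ℝ] ℂ) : ℂ →ₗ[ℝ] ℂ)) {c : ℝ}
    (hc : 0 < c) : ∃ V ∈ 𝓝 p, ∀ a ∈ V, ∀ b ∈ V, ∀ d ∈ V,
      c * (dist (f a) (f b) * dist (f a) (f d)) ≤ det3 (f a) (f b) (f d) →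
      0 < det3 (f a) (f b) (f d) → 0 < det3 (f' a) (f' b) (f' d) := by
  set T : ℂ →L[ℝ] ℂ := B' ∘L (B.symm : ℂ →L[ℝ] E) with hT
  set δ := LinearMap.det (T : ℂ →ₗ[ℝ] ℂ) with hδ
  have hTB : T ∘L (B : E →L[ℝ] ℂ) = B' := by
    ext v; simp [hT]
  -- the error
  have hg : HasStrictFDerivAt (fun a => f' a - T (f a)) (0 : E →L[ℝ] ℂ) p := by
    have h1 := hf'.sub (T.hasStrictFDerivAt.comp p hf)
    rw [hTB, sub_self] at h1
    exact h1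
  -- choose η
  obtain ⟨η, hη0, hη⟩ : ∃ η : ℝ, 0 < η ∧ 2 * ‖T‖ * η + η ^ 2 < δ * c := by
    have hcont : Tendsto (fun η : ℝ => 2 * ‖T‖ * η + η ^ 2) (𝓝[>] 0) (𝓝 (2 * ‖T‖ * 0 + 0 ^ 2)) := by
      apply tendsto_inf_left
      apply Continuous.tendsto
      fun_prop
    have h1 : ∀ᶠ η in 𝓝[>] (0 : ℝ), 2 * ‖T‖ * η + η ^ 2 < δ * c := by
      apply (tendsto_order.1 hcont).2
      simp only [mul_zero, ne_eq, OfNat.ofNat_ne_zero, not_false_eq_true, zero_pow, add_zero]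
      positivity
    have h2 : ∀ᶠ η in 𝓝[>] (0 : ℝ), 0 < η := self_mem_nhdsWithin
    exact (h2.and h1).exists
  -- lower bound for f
  obtain ⟨K, hK0, hK⟩ : ∃ K : ℝ, 0 < K ∧ ∀ᶠ ab : E × E in 𝓝 (p, p), ‖ab.1 - ab.2‖ ≤ K * ‖f ab.1 - f ab.2‖ := by
    set R := ‖(B.symm : ℂ →L[ℝ] E)‖ + 1 with hR
    have hR0 : 0 < R := by positivity
    refine ⟨2 * R, by positivity, ?_⟩
    have := (hasStrictFDerivAt_iff_isLittleO.1 hf).bound (c := 1 / (2 * R)) (by positivity)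
    filter_upwards [this] with ab hab
    have h1 : ‖ab.1 - ab.2‖ ≤ R * ‖B (ab.1 - ab.2)‖ := by
      have := (B.symm : ℂ →L[ℝ] E).le_opNorm (B (ab.1 - ab.2))
      simp only [ContinuousLinearEquiv.coe_coe, ContinuousLinearEquiv.symm_apply_apply] at this
      refine this.trans ?_
      gcongr
      simp [hR]
    have h2 : ‖B (ab.1 - ab.2)‖ ≤ ‖f ab.1 - f ab.2‖ + 1 / (2 * R) * ‖ab.1 - ab.2‖ := by
      have h3 : B (ab.1 - ab.2) = (f ab.1 - f ab.2) - (f ab.1 - f ab.2 - B (ab.1 - ab.2)) := by ring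
      calc ‖B (ab.1 - ab.2)‖ = ‖(f ab.1 - f ab.2) - (f ab.1 - f ab.2 - B (ab.1 - ab.2))‖ := by rw [← h3]
        _ ≤ ‖f ab.1 - f ab.2‖ + ‖f ab.1 - f ab.2 - B (ab.1 - ab.2)‖ := norm_sub_le _ _
        _ ≤ _ := by gcongr; simpa using hab
    have h4 : R * ‖B (ab.1 - ab.2)‖ ≤ R * (‖f ab.1 - f ab.2‖ + 1 / (2 * R) * ‖ab.1 - ab.2‖) := by
      gcongr
    have h5 : R * (‖f ab.1 - f ab.2‖ + 1 / (2 * R) * ‖ab.1 - ab.2‖) =
        R * ‖f ab.1 - f ab.2‖ + ‖ab.1 - ab.2‖ / 2 := by field_simp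
    linarith
  have hgε : ∀ᶠ ab : E × E in 𝓝 (p, p),
      ‖(f' ab.1 - T (f ab.1)) - (f' ab.2 - T (f ab.2))‖ ≤ (η / K) * ‖ab.1 - ab.2‖ := by
    have := (hasStrictFDerivAt_iff_isLittleO.1 hg).bound (c := η / K) (by positivity)
    simpa using this
  have hI := inter_mem hK hgε
  rw [nhds_prod_eq] at hI
  obtain ⟨V, hV, hVV⟩ := mem_prod_same_iff.1 hI
  refine ⟨V, hV, fun a ha b hb d hd h1 h2 => ?_⟩
  have key : ∀ b ∈ V, ‖(f' b - f' a) - T (f b - f a)‖ ≤ η * ‖f b - f a‖ := by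
    intro b hb
    have h3 := hVV (mk_mem_prod hb ha)
    have h4 : ‖(f' b - f' a) - T (f b - f a)‖ = ‖(f' b - T (f b)) - (f' a - T (f a))‖ := by
      congr 1
      rw [map_sub]; ring
    rw [h4]
    calc _ ≤ (η / K) * ‖b - a‖ := h3.2
      _ ≤ (η / K) * (K * ‖f b - f a‖) := by gcongr; exact h3.1
      _ = η * ‖f b - f a‖ := by field_simp
  have kb := key b hb
  have kd := key d hd
  rw [det3_eq] at h1 h2 ⊢
  rw [dist_comm, dist_comm (f a), dist_eq_norm, dist_eq_norm] at h1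
  set X := f b - f a
  set Y := f d - f a
  set ξ := (f' b - f' a) - T X with hξ
  set ζ := (f' d - f' a) - T Y with hζ
  have e1 : f' b - f' a = T X + ξ := by rw [hξ]; ring
  have e2 : f' d - f' a = T Y + ζ := by rw [hζ]; ring
  rw [e1, e2, cr_add_add]
  have e3 : cr (T X) (T Y) = δ * cr X Y := cr_map (T : ℂ →ₗ[ℝ] ℂ) X Y
  have hX : 0 < ‖X‖ := by
    rw [norm_pos_iff]
    rintro h
    rw [h] at h2
    simp [cr] at h2
  have hY : 0 < ‖Y‖ := by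
    rw [norm_pos_iff]
    rintro h
    rw [h] at h2
    simp [cr] at h2
  have b1 : |cr (T X) ζ| ≤ ‖T‖ * η * (‖X‖ * ‖Y‖) := by
    calc _ ≤ ‖T X‖ * ‖ζ‖ := abs_cr_le _ _
      _ ≤ (‖T‖ * ‖X‖) * (η * ‖Y‖) := by gcongr; exact T.le_opNorm X
      _ = _ := by ring
  have b2 : |cr ξ (T Y)| ≤ ‖T‖ * η * (‖X‖ * ‖Y‖) := by
    calc _ ≤ ‖ξ‖ * ‖T Y‖ := abs_cr_le _ _
      _ ≤ (η * ‖X‖) * (‖T‖ * ‖Y‖) := by gcongr; exact T.le_opNorm Y
      _ = _ := by ring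
  have b3 : |cr ξ ζ| ≤ η ^ 2 * (‖X‖ * ‖Y‖) := by
    calc _ ≤ ‖ξ‖ * ‖ζ‖ := abs_cr_le _ _
      _ ≤ (η * ‖X‖) * (η * ‖Y‖) := by gcongr
      _ = _ := by ring
  have hδ0 : 0 < δ := hdet
  have hXY : 0 < ‖X‖ * ‖Y‖ := by positivity
  have b4 : δ * (c * (‖X‖ * ‖Y‖)) ≤ δ * cr X Y := by gcongr
  have b5 : (2 * ‖T‖ * η + η ^ 2) * (‖X‖ * ‖Y‖) < δ * c * (‖X‖ * ‖Y‖) := by gcongr
  have b1' := (abs_le.1 b1).1
  have b2' := (abs_le.1 b2).1
  have b3' := (abs_le.1 b3).1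
  rw [e3]
  nlinarith

end Pool.Agent.Helper17.Chart
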