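import Mathlib
import Pool.Agent.Helper17.Chart.Basic

open Set Metric Bundle Manifold Filter MeasureTheory
open scoped ENNReal NNReal Topology ContDiff

noncomputable section

namespace Pool.Agent.Helper17.Chart

variable {M : Type*} [TopologicalSpace M] [ChartedSpace E2 M] [IsManifold (𝓡 2) ∞ M]

/-- transition map -/
def tr (x : M) (e : OpenPartialHomeomorph M E2) : E2 → E2 := extChartAt (𝓡 2) x ∘ e.symm

theorem tr_contDiffAt (x : M) {e : OpenPartialHomeomorph M E2}
    (he : e ∈ IsManifold.maximalAtlas (𝓡 2) ∞ M) {q : M} (hq : q ∈ e.source)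
    (hq' : q ∈ (chartAt E2 x).source) : ContDiffAt ℝ ∞ (tr x e) (e q) := by
  rw [← contMDiffAt_iff_contDiffAt]
  have h1 : ContMDiffAt (𝓡 2) (𝓡 2) ∞ e.symm (e q) :=
    contMDiffAt_symm_of_mem_maximalAtlas he (e.map_source hq)
  have h2 : ContMDiffAt (𝓡 2) 𝓘(ℝ, E2) ∞ (extChartAt (𝓡 2) x) (e.symm (e q)) := by
    rw [e.left_inv hq]
    exact contMDiffAt_extChartAt' hq'
  exact h2.comp (e q) h1

theorem tr_det_ne (x : M) {e : OpenPartialHomeomorph M E2}
    (he : e ∈ IsManifold.maximalAtlas (𝓡 2) ∞ M) {q : M} (hq : q ∈ e.source)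
    (hq' : q ∈ (chartAt E2 x).source) : (fderiv ℝ (tr x e) (e q)).det ≠ 0 := by
  have hq'' : q ∈ (extChartAt (𝓡 2) x).source := by rwa [extChartAt_source]
  have h0 : tr x e (e q) = extChartAt (𝓡 2) x q := by
    simp only [tr, Function.comp_apply]
    rw [e.left_inv hq]
  -- the inverse map
  have h3 : ContDiffAt ℝ ∞ (e ∘ (extChartAt (𝓡 2) x).symm) (extChartAt (𝓡 2) x q) := by
    rw [← contMDiffAt_iff_contDiffAt]
    have h1 : ContMDiffAt 𝓘(ℝ, E2) (𝓡 2) ∞ (extChartAt (𝓡 2) x).symm (extChartAt (𝓡 2) x q) :=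
      (contMDiffOn_extChartAt_symm x).contMDiffAt (extChartAt_target_mem_nhds' (by
        rw [← extChartAt_source (𝓡 2)] at hq'
        exact (extChartAt (𝓡 2) x).map_source hq'))
    have h2 : ContMDiffAt (𝓡 2) (𝓡 2) ∞ e ((extChartAt (𝓡 2) x).symm (extChartAt (𝓡 2) x q)) := by
      rw [(extChartAt (𝓡 2) x).left_inv hq'']
      exact contMDiffAt_of_mem_maximalAtlas he hq
    exact h2.comp _ h1
  have h4 := tr_contDiffAt x he hq hq'
  have hid : (e ∘ (extChartAt (𝓡 2) x).symm) ∘ tr x e =ᶠ[𝓝 (e q)] id := by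
    have : ∀ᶠ p in 𝓝 (e q), p ∈ e.target := e.open_target.mem_nhds (e.map_source hq)
    have h5 : ∀ᶠ p in 𝓝 (e q), e.symm p ∈ (extChartAt (𝓡 2) x).source := by
      apply (e.continuousAt_symm (e.map_source hq)).preimage_mem_nhds
      rw [e.left_inv hq]
      exact extChartAt_source_mem_nhds' hq''
    filter_upwards [this, h5] with p hp hp'
    simp only [tr, Function.comp_apply, id]
    rw [(extChartAt (𝓡 2) x).left_inv hp', e.right_inv hp]
  have h6 : fderiv ℝ ((e ∘ (extChartAt (𝓡 2) x).symm) ∘ tr x e) (e q) =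
      (fderiv ℝ (e ∘ (extChartAt (𝓡 2) x).symm) (tr x e (e q))) ∘L (fderiv ℝ (tr x e) (e q)) := by
    apply fderiv_comp
    · rw [h0]; exact h3.differentiableAt (by simp)
    · exact h4.differentiableAt (by simp)
  rw [hid.fderiv_eq, fderiv_id] at h6
  intro h7
  have h8 : (ContinuousLinearMap.id ℝ E2).det = (fderiv ℝ (e ∘ (extChartAt (𝓡 2) x).symm) (tr x e (e q))).det *
      (fderiv ℝ (tr x e) (e q)).det := by
    rw [h6]
    simp [ContinuousLinearMap.det]
  rw [h7, mul_zero] at h8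
  simp [ContinuousLinearMap.det] at h8

theorem tr_comp (x : M) {e e' : OpenPartialHomeomorph M E2}
    (he : e ∈ IsManifold.maximalAtlas (𝓡 2) ∞ M) (he' : e' ∈ IsManifold.maximalAtlas (𝓡 2) ∞ M)
    {q : M} (hq : q ∈ e.source) (hqe' : q ∈ e'.source)
    (hq' : q ∈ (chartAt E2 x).source) :
    (fderiv ℝ (tr x e) (e q)).det =
      (fderiv ℝ (tr x e') (e' q)).det * (fderiv ℝ (e.symm ≫ₕ e') (e q)).det := by
  have h1 : tr x e =ᶠ[𝓝 (e q)] tr x e' ∘ (e.symm ≫ₕ e') := by
    have h5 : ∀ᶠ p in 𝓝 (e q), e.symm p ∈ e'.source := by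
      apply (e.continuousAt_symm (e.map_source hq)).preimage_mem_nhds
      rw [e.left_inv hq]
      exact e'.open_source.mem_nhds hqe'
    filter_upwards [h5] with p hp
    simp only [tr, Function.comp_apply, OpenPartialHomeomorph.coe_trans]
    rw [e'.left_inv hp]
  have h2 : (e.symm ≫ₕ e') (e q) = e' q := by
    simp only [OpenPartialHomeomorph.coe_trans, Function.comp_apply]
    rw [e.left_inv hq]
  have h3 : ContDiffAt ℝ ∞ (e.symm ≫ₕ e') (e q) := by
    rw [← contMDiffAt_iff_contDiffAt]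
    have h1 : ContMDiffAt (𝓡 2) (𝓡 2) ∞ e.symm (e q) :=
      contMDiffAt_symm_of_mem_maximalAtlas he (e.map_source hq)
    have h2 : ContMDiffAt (𝓡 2) (𝓡 2) ∞ e' (e.symm (e q)) := by
      rw [e.left_inv hq]
      exact contMDiffAt_of_mem_maximalAtlas he' hqe'
    exact h2.comp (e q) h1
  have h4 := tr_contDiffAt x he' hqe' hq'
  rw [h1.fderiv_eq, fderiv_comp, h2]
  · simp [ContinuousLinearMap.det]
  · rw [h2]; exact h4.differentiableAt (by simp)
  · exact h3.differentiableAt (by simp)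

theorem tr_det_continuousAt (x : M) {e : OpenPartialHomeomorph M E2}
    (he : e ∈ IsManifold.maximalAtlas (𝓡 2) ∞ M) {q : M} (hq : q ∈ e.source)
    (hq' : q ∈ (chartAt E2 x).source) :
    ContinuousAt (fun y => (fderiv ℝ (tr x e) (e y)).det) q := by
  have h1 := tr_contDiffAt x he hq hq'
  have h2 : ContinuousAt (fderiv ℝ (tr x e)) (e q) :=
    (h1.fderiv_right (m := 0) (by simp)).continuousAt
  have h3 : ContinuousAt (fun y => fderiv ℝ (tr x e) (e y)) q :=
    ContinuousAt.comp (g := fderiv ℝ (tr x e)) (f := e) h2 (e.continuousAt hq)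
  exact (ContinuousLinearMap.continuous_det.continuousAt).comp h3

end Pool.Agent.Helper17.Chart
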