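import Mathlib
import Pool.Agent.Helper17.Chart.Bi
import Pool.Agent.Helper17.Chart.Core
import Pool.Agent.Helper17.Chart.Trans

open Set Metric Bundle Manifold Filter MeasureTheory
open scoped ENNReal NNReal Topology ContDiff

noncomputable section

namespace Pool.Agent.Helper17.Chart

open Pool.Agent.Helper57.Cut

/-- orientation sign of a linear map to ℂ -/
def dt (L : E2 →L[ℝ] ℂ) : ℝ :=
  (((Complex.orthonormalBasisOneI.repr.toContinuousLinearEquiv : ℂ ≃L[ℝ] E2) : ℂ →L[ℝ] E2) ∘L L).det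

theorem dt_comp (L : E2 →L[ℝ] ℂ) (R : E2 →L[ℝ] E2) : dt (L ∘L R) = dt L * R.det := by
  simp [dt, ContinuousLinearMap.det, ← LinearMap.det_comp, LinearMap.comp_assoc]

theorem dt_left (T : ℂ →L[ℝ] ℂ) (L : E2 →L[ℝ] ℂ) :
    dt (T ∘L L) = LinearMap.det (T : ℂ →ₗ[ℝ] ℂ) * dt L := by
  set κ := (Complex.orthonormalBasisOneI.repr.toContinuousLinearEquiv : ℂ ≃L[ℝ] E2) with hκ
  have h1 : ((κ : ℂ →L[ℝ] E2) ∘L (T ∘L L) : E2 →L[ℝ] E2) =
      ((κ : ℂ →L[ℝ] E2) ∘L T ∘L (κ.symm : E2 →L[ℝ] ℂ)) ∘L ((κ : ℂ →L[ℝ] E2) ∘L L) := by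
    ext v; simp
  have h2 : LinearMap.det (((κ : ℂ →L[ℝ] E2) ∘L T ∘L (κ.symm : E2 →L[ℝ] ℂ) : E2 →L[ℝ] E2) : E2 →ₗ[ℝ] E2)
      = LinearMap.det (T : ℂ →ₗ[ℝ] ℂ) := by
    have := LinearMap.det_conj (T : ℂ →ₗ[ℝ] ℂ) (κ.toLinearEquiv)
    exact this
  rw [dt, h1]
  simp only [dt, ContinuousLinearMap.det]
  rw [← h2, ← LinearMap.det_comp]
  rfl

theorem dt_ne (S : E2 ≃L[ℝ] ℂ) : dt (S : E2 →L[ℝ] ℂ) ≠ 0 := by
  set κ := (Complex.orthonormalBasisOneI.repr.toContinuousLinearEquiv : ℂ ≃L[ℝ] E2) with hκ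
  have h1 : dt (S : E2 →L[ℝ] ℂ) = LinearMap.det (((S.trans κ).toLinearEquiv : E2 ≃ₗ[ℝ] E2) : E2 →ₗ[ℝ] E2) := rfl
  rw [h1]
  exact (LinearEquiv.isUnit_det' _).ne_zero

theorem dt_conj (S : E2 ≃L[ℝ] ℂ) :
    dt ((S.trans Complex.conjCLE : E2 ≃L[ℝ] ℂ) : E2 →L[ℝ] ℂ) = - dt (S : E2 →L[ℝ] ℂ) := by
  have h1 : ((S.trans Complex.conjCLE : E2 ≃L[ℝ] ℂ) : E2 →L[ℝ] ℂ) =
      ((Complex.conjCLE : ℂ ≃L[ℝ] ℂ) : ℂ →L[ℝ] ℂ) ∘L (S : E2 →L[ℝ] ℂ) := rfl
  rw [h1, dt_left]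
  have h2 : LinearMap.det (((Complex.conjCLE : ℂ ≃L[ℝ] ℂ) : ℂ →L[ℝ] ℂ) : ℂ →ₗ[ℝ] ℂ) = -1 :=
    Complex.det_conjAe
  rw [h2]; ring

section length

variable {M : Type*} [EMetricSpace M] [ChartedSpace E2 M]
    [IsManifold (𝓡 2) ∞ M] [Bundle.RiemannianBundle (fun x : M => TangentSpace (𝓡 2) x)]
    [IsRiemannianManifold (𝓡 2) M]

theorem sum_pathELength (γ : ℝ → M) (u : ℕ → ℝ) (hu : Monotone u) (n : ℕ) :
    ∑ i ∈ Finset.range n, pathELength (𝓡 2) γ (u i) (u (i + 1)) = pathELength (𝓡 2) γ (u 0) (u n) := by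
  induction n with
  | zero => simp
  | succ n ih =>
    rw [Finset.sum_range_succ, ih, pathELength_add (hu (Nat.zero_le n)) (hu (Nat.le_succ n))]

theorem length_thm (x y : M) (L : ℝ≥0∞) (h : edist x y < L) : ∃ p : Path x y, len p < L := by
  rw [IsRiemannianManifold.out (I := 𝓡 2) x y] at h
  obtain ⟨γ, γ0, γ1, γs, γL, -⟩ := exists_lt_locally_constant_of_riemannianEDist_lt h zero_lt_one
  refine ⟨⟨⟨fun t : unitInterval => γ t, γs.continuous.comp continuous_subtype_val⟩, by simpa using γ0,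
    by simpa using γ1⟩, ?_⟩
  refine lt_of_le_of_lt ?_ γL
  refine iSup_le fun p => ?_
  obtain ⟨n, u, hu, -⟩ := p
  have hu' : Monotone (fun i => (u i : ℝ)) := fun a b hab => hu hab
  calc _ ≤ ∑ i ∈ Finset.range n, pathELength (𝓡 2) γ (u i) (u (i + 1)) := by
        apply Finset.sum_le_sum
        intro i _
        have h1 : edist (γ (u (i + 1))) (γ (u i)) = riemannianEDist (𝓡 2) (γ (u i)) (γ (u (i + 1))) := by
          rw [edist_comm]; exact IsRiemannianManifold.out _ _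
        refine h1.trans_le ?_
        exact riemannianEDist_le_pathELength γs.contMDiffOn rfl rfl (hu' (Nat.le_succ i))
    _ = pathELength (𝓡 2) γ (u 0) (u n) := sum_pathELength γ (fun i => (u i : ℝ)) hu' n
    _ ≤ pathELength (𝓡 2) γ 0 1 := pathELength_mono (u 0).2.1 (u n).2.2

end length

variable {M : Type*} [EMetricSpace M] [ChartedSpace E2 M]
    [IsManifold (𝓡 2) ∞ M] [Bundle.RiemannianBundle (fun x : M => TangentSpace (𝓡 2) x)]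
    [IsContinuousRiemannianBundle E2 (fun x : M => TangentSpace (𝓡 2) x)]
    [IsRiemannianManifold (𝓡 2) M]

theorem exists_chart (x : M) {C : ℝ≥0} (hC : 1 < C) {A : Set (OpenPartialHomeomorph M E2)}
    (hA : A ⊆ IsManifold.maximalAtlas (𝓡 2) ∞ M) (hcov : ∀ x, ∃ e ∈ A, x ∈ e.source) :
    ∃ (S : E2 ≃L[ℝ] ℂ) (r : ℝ≥0) (e : OpenPartialHomeomorph M E2), 0 < r ∧ e ∈ A ∧
      (∀ y ∈ eball x r, ∀ z ∈ eball x r,
        edist (S (extChartAt (𝓡 2) x y)) (S (extChartAt (𝓡 2) x z)) ≤ C * edist y z ∧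
        edist y z ≤ C * edist (S (extChartAt (𝓡 2) x y)) (S (extChartAt (𝓡 2) x z))) ∧
      (∀ y ∈ eball x r, y ∈ e.source ∧ y ∈ (chartAt E2 x).source ∧
        0 < dt (S : E2 →L[ℝ] ℂ) * (fderiv ℝ (tr x e) (e y)).det) := by
  obtain ⟨e, heA, hxe⟩ := hcov x
  obtain ⟨S₀, hU, hL⟩ := exists_S x hC
  obtain ⟨r₁, hr₁, h1⟩ := exists_upper x (zero_lt_one.trans hC) S₀ hU
  obtain ⟨r₂, hr₂, h2⟩ := exists_lower x S₀ (lower_symm x hL)
  have hx : x ∈ (chartAt E2 x).source := mem_chart_source E2 x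
  have hne := tr_det_ne x (hA heA) hxe hx
  obtain ⟨S, hS, hpos⟩ : ∃ S : E2 ≃L[ℝ] ℂ, (∀ a b, edist (S a) (S b) = edist (S₀ a) (S₀ b)) ∧
      0 < dt (S : E2 →L[ℝ] ℂ) * (fderiv ℝ (tr x e) (e x)).det := by
    have h3 : dt (S₀ : E2 →L[ℝ] ℂ) * (fderiv ℝ (tr x e) (e x)).det ≠ 0 := mul_ne_zero (dt_ne S₀) hne
    rcases lt_or_gt_of_ne h3 with h | h
    · refine ⟨S₀.trans Complex.conjCLE, fun a b => ?_, ?_⟩
      · exact Complex.isometry_conj.edist_eq _ _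
      · rw [dt_conj]; linarith
    · exact ⟨S₀, fun a b => rfl, h⟩
  have hcont := tr_det_continuousAt x (hA heA) hxe hx
  have h4 : ∀ᶠ y in 𝓝 x, 0 < dt (S : E2 →L[ℝ] ℂ) * (fderiv ℝ (tr x e) (e y)).det :=
    (continuousAt_const.mul hcont).eventually (lt_mem_nhds hpos)
  have h5 := inter_mem (inter_mem (e.open_source.mem_nhds hxe) (chart_source_mem_nhds E2 x)) h4
  obtain ⟨ρ, hρ0, hρ⟩ := EMetric.mem_nhds_iff.1 h5
  obtain ⟨ρ', hρ'0, hρ'⟩ : ∃ ρ' : ℝ≥0, 0 < ρ' ∧ (ρ' : ℝ≥0∞) ≤ ρ := by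
    by_cases hT : ρ = ⊤
    · exact ⟨1, one_pos, by simp [hT]⟩
    · lift ρ to ℝ≥0 using hT
      exact ⟨ρ, by exact_mod_cast hρ0, le_rfl⟩
  refine ⟨S, min (min r₁ r₂) ρ', e, lt_min (lt_min hr₁ hr₂) hρ'0, heA, fun y hy z hz => ?_,
    fun y hy => ?_⟩
  · have s1 : eball x ((min (min r₁ r₂) ρ' : ℝ≥0) : ℝ≥0∞) ⊆ eball x r₁ :=
      eball_subset_eball (by exact_mod_cast (min_le_left _ _).trans (min_le_left _ _))
    have s2 : eball x ((min (min r₁ r₂) ρ' : ℝ≥0) : ℝ≥0∞) ⊆ eball x r₂ :=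
      eball_subset_eball (by exact_mod_cast (min_le_left _ _).trans (min_le_right _ _))
    rw [hS]
    exact ⟨h1 y (s1 hy) z (s1 hz), h2 y (s2 hy) z (s2 hz)⟩
  · have s3 : eball x ((min (min r₁ r₂) ρ' : ℝ≥0) : ℝ≥0∞) ⊆ eball x ρ :=
      eball_subset_eball (le_trans (by exact_mod_cast (min_le_right _ _)) hρ')
    have := hρ (s3 hy)
    exact ⟨this.1.1, this.1.2, this.2⟩

theorem chart_stmt' (hO : Orientable M) : ESurface M := by
  refine ⟨length_thm, fun C hC => ?_⟩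
  obtain ⟨A, hA, hcov, hdet⟩ := hO
  choose S r e hr heA hbi hpos using fun x : M => exists_chart x hC hA hcov
  refine ⟨fun x y => S x (extChartAt (𝓡 2) x y), r, hr, hbi, fun x => ?_, fun x x' q hq hq' c hc => ?_⟩
  · -- image
    have h1 : (S x) '' ((extChartAt (𝓡 2) x) '' (eball x (r x))) ∈ 𝓝 (S x (extChartAt (𝓡 2) x x)) := by
      have h2 : (extChartAt (𝓡 2) x) '' (eball x (r x)) ∈ 𝓝 (extChartAt (𝓡 2) x x) := by
        rw [← map_extChartAt_nhds_of_boundaryless]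
        exact image_mem_map (eball_mem_nhds _ (by exact_mod_cast hr x))
      have h3 : map (S x) (𝓝 (extChartAt (𝓡 2) x x)) = 𝓝 (S x (extChartAt (𝓡 2) x x)) :=
        (S x).toHomeomorph.map_nhds_eq _
      rw [← h3]
      exact image_mem_map h2
    rw [image_image] at h1
    exact Metric.mem_nhds_iff.1 h1
  · -- orientation
    have hm := hpos x q hq
    have hm' := hpos x' q hq'
    set p := e x q with hp
    have hq1 := hm.1
    have hq2 := hm'.1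
    have hd1 := (tr_contDiffAt x (hA (heA x)) hq1 hm.2.1).hasStrictFDerivAt (by simp)
    have hd2 := (tr_contDiffAt x' (hA (heA x)) hq1 hm'.2.1).hasStrictFDerivAt (by simp)
    have hf1 := (S x : E2 →L[ℝ] ℂ).hasStrictFDerivAt.comp p hd1
    have hf2 := (S x' : E2 →L[ℝ] ℂ).hasStrictFDerivAt.comp p hd2
    have hne := tr_det_ne x (hA (heA x)) hq1 hm.2.1
    let B : E2 ≃L[ℝ] ℂ := ((fderiv ℝ (tr x (e x)) (e x q)).toContinuousLinearEquivOfDetNeZero hne).trans (S x)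
    have hB : (B : E2 →L[ℝ] ℂ) = (S x : E2 →L[ℝ] ℂ) ∘L (fderiv ℝ (tr x (e x)) (e x q)) := by
      ext v; rfl
    rw [← hB] at hf1
    set B' : E2 →L[ℝ] ℂ := (S x' : E2 →L[ℝ] ℂ) ∘L (fderiv ℝ (tr x' (e x)) (e x q)) with hB'
    have hdB : 0 < dt (B : E2 →L[ℝ] ℂ) := by rw [hB, dt_comp]; exact hm.2.2
    have hdB' : 0 < dt B' := by
      rw [hB', dt_comp, tr_comp x' (hA (heA x)) (hA (heA x')) hq1 hq2 hm'.2.1, ← mul_assoc]
      apply mul_pos hm'.2.2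
      apply hdet _ (heA x) _ (heA x')
      simp only [OpenPartialHomeomorph.trans_source, OpenPartialHomeomorph.symm_source, mem_inter_iff,
        mem_preimage]
      exact ⟨(e x).map_source hq1, by rw [(e x).left_inv hq1]; exact hq2⟩
    have hT : 0 < LinearMap.det ((B' ∘L (B.symm : ℂ →L[ℝ] E2) : ℂ →L[ℝ] ℂ) : ℂ →ₗ[ℝ] ℂ) := by
      have h1 : (B' ∘L (B.symm : ℂ →L[ℝ] E2)) ∘L (B : E2 →L[ℝ] ℂ) = B' := by ext v; simp
      have h2 := dt_left (B' ∘L (B.symm : ℂ →L[ℝ] E2)) (B : E2 →L[ℝ] ℂ)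
      rw [h1] at h2
      rw [h2] at hdB'
      exact pos_of_mul_pos_left hdB' hdB.le
    obtain ⟨V, hV, hVV⟩ := core hf1 hf2 hT hc
    have h6 : (e x) ⁻¹' V ∩ (e x).source ∈ 𝓝 q :=
      inter_mem (((e x).continuousAt hq1).preimage_mem_nhds hV) ((e x).open_source.mem_nhds hq1)
    obtain ⟨ρ, hρ0, hρ⟩ := EMetric.mem_nhds_iff.1 h6
    obtain ⟨ρ', hρ'0, hρ'⟩ : ∃ ρ' : ℝ≥0, 0 < ρ' ∧ (ρ' : ℝ≥0∞) ≤ ρ := by
      by_cases hT : ρ = ⊤
      · exact ⟨1, one_pos, by simp [hT]⟩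
      · lift ρ to ℝ≥0 using hT
        exact ⟨ρ, by exact_mod_cast hρ0, le_rfl⟩
    refine ⟨ρ', hρ'0, fun u hu v hv w hw => ?_⟩
    have hu' := hρ (eball_subset_eball hρ' hu)
    have hv' := hρ (eball_subset_eball hρ' hv)
    have hw' := hρ (eball_subset_eball hρ' hw)
    have h7 := hVV _ hu'.1 _ hv'.1 _ hw'.1
    simp only [Function.comp_apply, tr, ContinuousLinearEquiv.coe_coe] at h7
    rw [(e x).left_inv hu'.2, (e x).left_inv hv'.2, (e x).left_inv hw'.2] at h7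
    exact h7

end Pool.Agent.Helper17.Chart

namespace Pool.Agent.Helper17

/-- Packet GEO-CH -/
theorem chart_stmt : Pool.Agent.Helper57.Cut.ChartStmt := by
  intro M _ _ _ _ _ _ hO
  exact Chart.chart_stmt' hO

end Pool.Agent.Helper17
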